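import Pool.Agent.H755R5.Kum.Stmts2
import Pool.Agent.H169R3.Kum.C

set_option autoImplicit false

namespace Pool.Agent.H612K.Kum

open Pool.Agent.H755R5.Kum Pool.Agent.H169R3.Kum
open NumberField Polynomial

lemma not_sq (η : ℤ) (h : ¬ ∃ t : ℤ, t ^ 2 = η) (b : ℚ) : b ^ 2 ≠ (η : ℚ) := by
  intro hb
  have hint : IsIntegral ℤ b := by
    refine ⟨X ^ 2 - C η, monic_X_pow_sub_C _ two_ne_zero, ?_⟩
    rw [eval₂_sub, eval₂_X_pow, eval₂_C, hb]
    simp
  obtain ⟨z, hz⟩ := IsIntegrallyClosed.isIntegral_iff.1 hint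
  apply h
  refine ⟨z, ?_⟩
  have h1 : (z : ℚ) ^ 2 = (η : ℚ) := by rw [← hb, ← hz]; simp
  exact_mod_cast h1

theorem taskC2 : TaskC2 := by
  intro η hno
  have hq : (2 : ℕ).Prime := Nat.prime_two
  set f : ℚ[X] := X ^ 2 - C (η : ℚ) with hf
  have hirr : Irreducible f := X_pow_sub_C_irreducible_of_prime hq (not_sq η hno)
  haveI : Fact (Irreducible f) := ⟨hirr⟩
  let B : PowerBasis ℚ (AdjoinRoot f) := AdjoinRoot.powerBasis hirr.ne_zero
  haveI : FiniteDimensional ℚ (AdjoinRoot f) := B.finite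
  haveI : CharZero (AdjoinRoot f) := charZero_of_injective_algebraMap (algebraMap ℚ _).injective
  haveI : NumberField (AdjoinRoot f) := { to_charZero := inferInstance, to_finiteDimensional := inferInstance }
  have hfmap : (X ^ 2 - C η : ℤ[X]).map (Int.castRingHom ℚ) = f := by
    simp [hf]
  have hroot : IsIntegral ℤ (AdjoinRoot.root f) := by
    refine ⟨X ^ 2 - C η, monic_X_pow_sub_C _ hq.ne_zero, ?_⟩
    have h1 : (AdjoinRoot.root f) ^ 2 - (η : AdjoinRoot f) = 0 := by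
      have : eval₂ (AdjoinRoot.of f) (AdjoinRoot.root f) (X ^ 2 - C (η : ℚ)) = 0 :=
        AdjoinRoot.eval₂_root f
      rw [eval₂_sub, eval₂_X_pow, eval₂_C] at this
      simpa using this
    rw [eval₂_sub, eval₂_X_pow, eval₂_C]
    simpa using h1
  let θ : 𝓞 (AdjoinRoot f) := ⟨AdjoinRoot.root f, hroot⟩
  have hBgen : B.gen = AdjoinRoot.root f := rfl
  -- the discriminant
  have hDint : IsIntegral ℤ (Algebra.discr ℚ B.basis) := by
    refine Algebra.discr_isIntegral ℚ fun i => ?_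
    rw [B.basis_eq_pow, hBgen]
    exact hroot.pow _
  obtain ⟨d, hd⟩ := IsIntegrallyClosed.isIntegral_iff.1 hDint
  have hd0 : d ≠ 0 := by
    rintro rfl
    exact Algebra.discr_not_zero_of_basis ℚ B.basis (by rw [← hd]; simp)
  have haev : ∀ g : ℤ[X], ((aeval θ g : 𝓞 (AdjoinRoot f)) : AdjoinRoot f) =
      aeval (AdjoinRoot.root f) g := by
    intro g
    have := Polynomial.aeval_algebraMap_apply (AdjoinRoot f) θ g
    exact this.symm
  have H1 : ∀ x : 𝓞 (AdjoinRoot f), ∃ g : ℤ[X], aeval θ g = (d : 𝓞 (AdjoinRoot f)) * x := by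
    intro x
    have h1 := Algebra.discr_mul_isIntegral_mem_adjoin (R := ℤ) (K := ℚ) (B := B)
      (by rw [hBgen]; exact hroot) (NumberField.RingOfIntegers.isIntegral_coe x)
    rw [hBgen, Algebra.adjoin_singleton_eq_range_aeval] at h1
    obtain ⟨g, hg⟩ := h1
    refine ⟨g, ?_⟩
    apply NumberField.RingOfIntegers.coe_injective
    have h2 : aeval (AdjoinRoot.root f) g = Algebra.discr ℚ B.basis • (x : AdjoinRoot f) := hg
    change ((aeval θ g : 𝓞 (AdjoinRoot f)) : AdjoinRoot f) = _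
    rw [haev, h2, ← hd, Algebra.smul_def]
    simp
  have H2 : ∀ h : ℤ[X], aeval θ h = 0 → (X ^ 2 - C η : ℤ[X]) ∣ h := by
    intro h hh
    have h1 : aeval (AdjoinRoot.root f) h = 0 := by
      rw [← haev, hh]; simp
    have h2 : AdjoinRoot.mk f (h.map (Int.castRingHom ℚ)) = 0 := by
      rw [← AdjoinRoot.aeval_eq]
      have := Polynomial.aeval_map_algebraMap ℚ (AdjoinRoot.root f) h
      rw [← h1, ← this]
      rfl
    rw [AdjoinRoot.mk_eq_zero, ← hfmap] at h2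
    exact (Polynomial.map_dvd_map _ Int.cast_injective
      (monic_X_pow_sub_C _ hq.ne_zero)).1 h2
  classical
  let Pr : (r : ℕ) → ZMod r → Ideal (𝓞 (AdjoinRoot f)) := fun r t =>
    if hc : ∃ P : Ideal (𝓞 (AdjoinRoot f)), P.IsMaximal ∧ Ideal.absNorm P = r ∧
      θ - ((t.val : ℤ) : 𝓞 (AdjoinRoot f)) ∈ P ∧ ∀ j : ℤ, (j : 𝓞 (AdjoinRoot f)) ∈ P → (r : ℤ) ∣ j
    then hc.choose else ⊤
  have hPr : ∀ r : ℕ, r.Prime → ¬ r ∣ d.natAbs → ∀ t : ZMod r, t ^ 2 = (η : ZMod r) →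
      (Pr r t).IsMaximal ∧ Ideal.absNorm (Pr r t) = r ∧
      θ - ((t.val : ℤ) : 𝓞 (AdjoinRoot f)) ∈ Pr r t ∧
      ∀ j : ℤ, (j : 𝓞 (AdjoinRoot f)) ∈ Pr r t → (r : ℤ) ∣ j := by
    intro r hr hrd t ht
    haveI : NeZero r := ⟨hr.ne_zero⟩
    have hrd' : ¬ (r : ℤ) ∣ d := by
      intro hcon
      exact hrd (Int.natCast_dvd.1 hcon)
    have hk : (r : ℤ) ∣ (X ^ 2 - C η : ℤ[X]).eval (t.val : ℤ) := by
      rw [← ZMod.intCast_zmod_eq_zero_iff_dvd]
      simp [ht]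
    have hc := exists_ideal θ (X ^ 2 - C η) d H1 H2 r hr hrd' (t.val : ℤ) hk
    have : Pr r t = hc.choose := dif_pos hc
    rw [this]
    exact hc.choose_spec
  refine ⟨AdjoinRoot f, inferInstance, inferInstance, d.natAbs, Pr,
    Int.natAbs_pos.2 hd0, fun r hr hrd t ht => ?_⟩
  haveI : NeZero r := ⟨hr.ne_zero⟩
  obtain ⟨h1, h2, h3, h4⟩ := hPr r hr hrd t ht
  refine ⟨h1, h2, fun t' ht' heq => ?_⟩
  obtain ⟨-, -, h3', -⟩ := hPr r hr hrd t' ht'
  rw [← heq] at h3'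
  have h5 : (((t.val : ℤ) - (t'.val : ℤ) : ℤ) : 𝓞 (AdjoinRoot f)) ∈ Pr r t := by
    have := (Pr r t).sub_mem h3' h3
    push_cast at this ⊢
    convert this using 1
    ring
  have h6 := h4 _ h5
  rw [← ZMod.intCast_zmod_eq_zero_iff_dvd] at h6
  push_cast at h6
  rw [ZMod.natCast_zmod_val, ZMod.natCast_zmod_val] at h6
  exact sub_eq_zero.1 h6

end Pool.Agent.H612K.Kum
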